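import Pool.Agent.P.MP_52b1ec_lc.Y.OGlue

open Pool.Agent.P.MP_52b1ec_lc

/-- Every orbit equivalence relation of a continuous action of a Polish group on a Polish space,
restricted to any invariant Borel set, is Borel bireducible with topological isomorphism on a
Borel invariant class of pro-countable groups. -/
theorem Pool.Agent.Results.MP_52b1ec_lc.Orbits.result (Γ Y : Type) [Group Γ] [TopologicalSpace Γ]
    [IsTopologicalGroup Γ] [PolishSpace Γ] [TopologicalSpace Y] [PolishSpace Y]
    [MeasurableSpace Y] [BorelSpace Y] [MulAction Γ Y] [ContinuousSMul Γ Y] (D : Set Y)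
    (hD : MeasurableSet D) (hi : ∀ g : Γ, ∀ y ∈ D, g • y ∈ D) :
    ∃ C ⊆ ProCountable, MeasurableSet C ∧ Invariant C ∧
      BorelRed (fun x y : D => ∃ g : Γ, g • x.1 = y.1) (IsoOn C) ∧
        BorelRed (IsoOn C) (fun x y : D => ∃ g : Γ, g • x.1 = y.1) :=
  OR.realize_orbit Γ Y D hD hi
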