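import Pool.Agent.P.MP_52b1ec_lc.Main

open Pool.Agent.P.MP_52b1ec_lc

/-- The class of pro-countable closed subgroups is Borel and invariant, its isomorphism relation
is analytic complete and is not Borel reducible to graph isomorphism. -/
theorem Pool.Agent.Results.MP_52b1ec_lc.ProCountable.result :
    MeasurableSet ProCountable ∧ Invariant ProCountable ∧
      AnalyticComplete (IsoOn ProCountable) ∧ ¬ BorelRed (IsoOn ProCountable) GraphIso :=
  main_proCountable
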