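import Pool.Agent.P.MP_52b1ec_lc.T.Glue

open Pool.Agent.P.MP_52b1ec_lc

/-- A Borel invariant class of pro-countable groups with a non-Borel isomorphism class, whose
isomorphism relation is not Borel reducible to graph isomorphism, although equality on Cantor
space is not Borel reducible to it. -/
theorem Pool.Agent.Results.MP_52b1ec_lc.Thin.result :
    ∃ C ⊆ ProCountable, MeasurableSet C ∧ Invariant C ∧
      (∃ G ∈ C, ¬ MeasurableSet {H | TopIso G H}) ∧ ¬ BorelRed (IsoOn C) GraphIso ∧
        ¬ BorelRed (fun x y : ℕ → Bool => x = y) (IsoOn C) :=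
  TH.thin
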