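import Pool.Agent.P.MP_52b1ec_lc.X.Glue

open Pool.Agent.P.MP_52b1ec_lc

/-- Dichotomy for the classes of closed subgroups defined by group laws. -/
theorem Pool.Agent.Results.MP_52b1ec_lc.Varieties.result (L : Set (FreeGroup ℕ)) :
    MeasurableSet (Var L) ∧ Invariant (Var L) ∧
      List.TFAE [∃ n : ℕ, Squarefree n ∧ Var L ⊆ AbExp n,
        BorelRed (IsoOn (Var L)) (fun a b : ℕ => a = b),
        BorelRed (IsoOn (Var L)) GraphIso,
        ¬ AnalyticComplete (IsoOn (Var L))] :=
  ⟨NC.measurableSet_var, NC.invariant_var, NC.tfae_var Set.inter_subset_left subset_rfl⟩
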